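import Mathlib
import Pool.Agent.Lib.MP_f30071_gt.VolProjH1
import Pool.Agent.Lib.MP_f30071_gt.FinG
import Pool.Agent.Lib.MP_f30071_gt.ProfMain

/-!
# Minkowski valuations mapping one body to a polytope (MP_f30071_gt)

`V` is any Euclidean space (real inner product space of finite dimension) of dimension at least
three, for instance `ℝⁿ` with `n ≥ 3`. Convex bodies are the bodies `ConvexBody` of Mathlib, with
the Hausdorff metric, the Minkowski sum and the dilatation of Mathlib.
-/

set_option autoImplicit false
set_option linter.unusedSectionVars false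

open MeasureTheory Set
open scoped InnerProductSpace Pointwise

namespace Pool.Agent.Results.MP_f30071_gt.PolytopeImage

section defs
variable {V : Type*} [NormedAddCommGroup V] [InnerProductSpace ℝ V]

/-- the support function `h(K,u) = max {⟨u,y⟩ : y ∈ K}` -/
noncomputable def supp (K : ConvexBody V) (u : V) : ℝ :=
  sSup ((fun y => ⟪u, y⟫_ℝ) '' (K : Set V))

/-- the one point body `{x}` -/
def point (x : V) : ConvexBody V :=
  ⟨{x}, convex_singleton x, isCompact_singleton, Set.singleton_nonempty x⟩

/-- the image of the body `K` under the linear isometry `g` -/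
noncomputable def image (g : V ≃ₗᵢ[ℝ] V) (K : ConvexBody V) : ConvexBody V :=
  ⟨g '' (K : Set V), K.convex.linear_image g.toLinearEquiv.toLinearMap,
    K.isCompact.image g.continuous, K.nonempty.image g⟩

/-- `K` is a polytope: the convex hull of a finite set of points -/
def IsPolytope (K : ConvexBody V) : Prop := ∃ P : Set V, P.Finite ∧ (K : Set V) = convexHull ℝ P

/-- continuous, translation invariant, rotation equivariant Minkowski valuations -/
structure IsMinkowskiValuation (Φ : ConvexBody V → ConvexBody V) : Prop where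
  /-- continuity for the Hausdorff metric -/
  continuous : Continuous Φ
  /-- `Φ(K ∪ M) + Φ(K ∩ M) = Φ(K) + Φ(M)` whenever `K ∪ M` is a body -/
  valuation : ∀ K M U I : ConvexBody V, (U : Set V) = (K : Set V) ∪ M →
    (I : Set V) = (K : Set V) ∩ M → Φ U + Φ I = Φ K + Φ M
  /-- translation invariance -/
  translation : ∀ (K : ConvexBody V) (t : V), Φ (K + point t) = Φ K
  /-- equivariance under the linear isometries of determinant one -/
  rotation : ∀ g : V ≃ₗᵢ[ℝ] V, LinearMap.det (g.toLinearEquiv : V →ₗ[ℝ] V) = 1 →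
    ∀ K : ConvexBody V, Φ (image g K) = image g (Φ K)

variable [FiniteDimensional ℝ V] [MeasurableSpace V] [BorelSpace V]

/-- the `(n-1)`-dimensional volume of the orthogonal projection of `K` onto the hyperplane
orthogonal to `u` -/
noncomputable def projVol (K : ConvexBody V) (u : V) : ℝ :=
  ((volume : Measure (ℝ ∙ u)ᗮ) ((ℝ ∙ u)ᗮ.orthogonalProjectionOnto '' (K : Set V))).toReal

/-- the Steiner point `s(K) = n ∫ h(K,u) u du`, integration over the unit sphere with respect to
the rotation invariant probability measure (the average over the sphere of the vector `h(K,u) u`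
with respect to the surface measure) -/
noncomputable def steiner (K : ConvexBody V) : V :=
  (Module.finrank ℝ V : ℝ) • ⨍ u : Metric.sphere (0 : V) 1, supp K (u : V) • (u : V)
    ∂((volume : Measure V).toSphere)

end defs

/-! ### Auxiliary facts -/

section aux
variable {V : Type*} [NormedAddCommGroup V] [InnerProductSpace ℝ V] [FiniteDimensional ℝ V]
  [MeasurableSpace V] [BorelSpace V]

private theorem supp_eq (K : ConvexBody V) (u : V) : supp K u = MV.hs K u := rfl

private theorem point_eq (x : V) : point x = MV.pt x := rfl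

private theorem image_eq (g : V ≃ₗᵢ[ℝ] V) (K : ConvexBody V) :
    image g K = MV.isoB g K := by
  apply ConvexBody.ext
  rw [MV.coe_isoB]
  rfl

private theorem isMVal {Φ : ConvexBody V → ConvexBody V} (h : IsMinkowskiValuation Φ) :
    MV.IsMVal Φ where
  cont := h.continuous
  val := h.valuation
  trans := fun K x => h.translation K x
  equi := fun g hg K => by
    rw [← image_eq, ← image_eq]
    exact h.rotation g hg K

private theorem projVol_eq (K : ConvexBody V) {u : V} (hu : ‖u‖ = 1) :
    projVol K u = MV.hs (MV.PiB K) u := by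
  rw [MV.hs_PiB]
  have h1 := MV.FrA.vol_add_seg hu K
  have h2 : ∀ x : V, (ℝ ∙ u)ᗮ.orthogonalProjectionOnto x = MV.FrA.pr1 hu x := by
    intro x
    apply Subtype.ext
    show (ℝ ∙ u)ᗮ.starProjection x = x - ⟪u, x⟫_ℝ • u
    rw [Submodule.starProjection_orthogonal_val, Submodule.starProjection_unit_singleton ℝ hu]
  have h3 : (fun x : V => (ℝ ∙ u)ᗮ.orthogonalProjectionOnto x) = MV.FrA.pr1 hu := funext h2
  have h4 : ((ℝ ∙ u)ᗮ.orthogonalProjectionOnto '' (K : Set V)) = MV.FrA.pr1 hu '' (K : Set V) :=
    by
      show (fun x : V => (ℝ ∙ u)ᗮ.orthogonalProjectionOnto x) '' (K : Set V) = _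
      rw [h3]
  have hc : Continuous (MV.FrA.pr1 hu) := by
    unfold MV.FrA.pr1
    fun_prop
  have h5 : (volume : Measure (ℝ ∙ u)ᗮ) (MV.FrA.pr1 hu '' (K : Set V)) ≠ ⊤ :=
    (K.isCompact.image hc).measure_lt_top.ne
  unfold projVol MV.D MV.vol
  rw [h4, h1, ENNReal.toReal_add (MV.volume_ne_top K) h5]
  ring

/-- integration in polar coordinates of a 2-homogeneous vector function over the unit ball -/
private theorem polar {n : ℕ} (hn : 0 < n) (hfr : Module.finrank ℝ V = n) (k : V → V)
    (hk : ∀ (r : ℝ) (v : V), 0 < r → k (r • v) = r ^ 2 • k v) :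
    ∫ x in Metric.ball (0 : V) 1, k x = ((n : ℝ) + 2)⁻¹ •
      ∫ u : Metric.sphere (0 : V) 1, k (u : V) ∂((volume : Measure V).toSphere) := by
  have : Nontrivial V := Module.nontrivial_of_finrank_pos (by rw [hfr]; exact hn)
  let φ : Ioi (0 : ℝ) → ℝ := fun r => if (r : ℝ) < 1 then (r : ℝ) ^ 2 else 0
  have h1 : ∫ x in Metric.ball (0 : V) 1, k x =
      ∫ x : V, (Metric.ball (0 : V) 1).indicator k x :=
    (integral_indicator Metric.isOpen_ball.measurableSet).symm
  have h2 : ∫ x : V, (Metric.ball (0 : V) 1).indicator k x =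
      ∫ x : ({(0 : V)}ᶜ : Set V), (Metric.ball (0 : V) 1).indicator k (x : V)
        ∂((volume : Measure V).comap (↑)) := by
    rw [integral_subtype_comap (measurableSet_singleton _).compl
      fun x => (Metric.ball (0 : V) 1).indicator k x, restrict_compl_singleton]
  have h3 : ∫ x : ({(0 : V)}ᶜ : Set V), (Metric.ball (0 : V) 1).indicator k (x : V)
        ∂((volume : Measure V).comap (↑)) =
      ∫ z, φ z.2 • k (z.1 : V)
        ∂((volume : Measure V).toSphere.prod
          (Measure.volumeIoiPow (Module.finrank ℝ V - 1))) := by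
    rw [← (volume : Measure V).measurePreserving_homeomorphUnitSphereProd.integral_comp
        (Homeomorph.measurableEmbedding _) (fun z => φ z.2 • k (z.1 : V))]
    apply integral_congr_ae
    filter_upwards with x
    have hx : (x : V) ≠ 0 := x.2
    have hx' : 0 < ‖(x : V)‖ := norm_pos_iff.2 hx
    have h4 : (((homeomorphUnitSphereProd V) x).1 : V) = ‖(x : V)‖⁻¹ • (x : V) := by
      simp
    have h5 : (((homeomorphUnitSphereProd V) x).2 : ℝ) = ‖(x : V)‖ := by
      simp
    show _ = (if (((homeomorphUnitSphereProd V) x).2 : ℝ) < 1 then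
      (((homeomorphUnitSphereProd V) x).2 : ℝ) ^ 2 else 0) • k _
    rw [h4, h5, hk _ _ (inv_pos.2 hx')]
    by_cases h6 : ‖(x : V)‖ < 1
    · rw [if_pos h6, Set.indicator_of_mem (by simpa using h6), smul_smul]
      rw [inv_pow, mul_inv_cancel₀ (by positivity), one_smul]
    · rw [if_neg h6, Set.indicator_of_notMem (by simpa using h6), zero_smul]
  have h7 : ∫ z, φ z.2 • k (z.1 : V)
        ∂((volume : Measure V).toSphere.prod
          (Measure.volumeIoiPow (Module.finrank ℝ V - 1))) =
      (∫ r, φ r ∂(Measure.volumeIoiPow (Module.finrank ℝ V - 1))) •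
        ∫ u : Metric.sphere (0 : V) 1, k (u : V) ∂((volume : Measure V).toSphere) := by
    rw [← integral_prod_smul, ← integral_prod_swap]
    rfl
  have h8 : ∫ r, φ r ∂(Measure.volumeIoiPow (Module.finrank ℝ V - 1)) =
      ((n : ℝ) + 2)⁻¹ := by
    simp only [Measure.volumeIoiPow, ENNReal.ofReal]
    rw [integral_withDensity_eq_integral_smul
      ((measurable_subtype_coe.pow_const _).real_toNNReal),
      integral_subtype_comap measurableSet_Ioi
        (fun a : ℝ => Real.toNNReal (a ^ (Module.finrank ℝ V - 1)) •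
          (if a < 1 then a ^ 2 else 0 : ℝ))]
    have h9 : ∫ y in Ioi (0 : ℝ), Real.toNNReal (y ^ (Module.finrank ℝ V - 1)) •
        (if y < 1 then y ^ 2 else 0 : ℝ) =
        ∫ y in Ioo (0 : ℝ) 1, y ^ (n + 1) := by
      rw [← integral_indicator measurableSet_Ioi, ← integral_indicator measurableSet_Ioo]
      apply integral_congr_ae
      filter_upwards with y
      by_cases h0 : 0 < y
      · by_cases h1 : y < 1
        · simp only [Set.indicator_apply, mem_Ioi, h0, if_true, mem_Ioo, h1, and_self, hfr,
            NNReal.smul_def, smul_eq_mul]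
          rw [Real.coe_toNNReal _ (pow_nonneg h0.le _), ← pow_add]
          congr 1; omega
        · simp [Set.indicator_apply, h1]
      · simp [h0]
    rw [h9, ← integral_Ioc_eq_integral_Ioo, ← intervalIntegral.integral_of_le zero_le_one,
      integral_pow]
    push_cast
    rw [one_pow, zero_pow (by omega), sub_zero, one_div]
    congr 1
    ring
  rw [h1, h2, h3, h7, h8]

private theorem steiner_eq (hn : 0 < Module.finrank ℝ V) (K : ConvexBody V) :
    steiner K = MV.stn K := by
  have hpol := polar hn rfl (fun x => MV.hs K x • x) (by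
    intro r v hr
    rw [MV.hs_smul_right K hr.le, smul_smul, smul_smul]
    congr 1
    ring)
  have hv := MV.volBall_pos (V := V)
  have hn' : (0 : ℝ) < Module.finrank ℝ V := by exact_mod_cast hn
  unfold steiner MV.stn
  rw [hpol, average_eq, Measure.toSphere_real_apply_univ, smul_smul, smul_smul]
  show _ • (∫ u : Metric.sphere (0 : V) 1, MV.hs K (u : V) • (u : V)
    ∂((volume : Measure V).toSphere)) = _
  congr 1
  have h1 : (volume : Measure V).real (Metric.ball (0 : V) 1) =
    ((volume : Measure V) (Metric.ball (0 : V) 1)).toReal := rfl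
  rw [h1]
  field_simp

end aux

/-- **Theorem.** Let `V` be a Euclidean space of dimension `n ≥ 3`. There is a map `Pi` from convex
bodies to convex bodies with `h(Pi K, u)` the `(n-1)`-dimensional volume of the projection of `K`
onto the hyperplane orthogonal to `u`, for all unit vectors `u` (the projection body), and whenever
`Φ` is a continuous, translation invariant, rotation equivariant Minkowski valuation which maps at
least one `n`-dimensional convex body to a polytope, there are constants `c₁, c₂, c₃ ≥ 0` with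
`Φ K = c₁ Pi K + c₂ (K - s(K)) + c₃ (-K + s(K))` for all convex bodies `K`. -/
theorem result {V : Type*} [NormedAddCommGroup V] [InnerProductSpace ℝ V] [FiniteDimensional ℝ V]
    [MeasurableSpace V] [BorelSpace V] (hn : 3 ≤ Module.finrank ℝ V) :
    ∃ Pi : ConvexBody V → ConvexBody V,
      (∀ (K : ConvexBody V) (u : V), ‖u‖ = 1 → supp (Pi K) u = projVol K u) ∧
      ∀ Φ : ConvexBody V → ConvexBody V, IsMinkowskiValuation Φ →
        (∃ K₀ : ConvexBody V, (interior (K₀ : Set V)).Nonempty ∧ IsPolytope (Φ K₀)) →
        ∃ c₁ c₂ c₃ : ℝ, 0 ≤ c₁ ∧ 0 ≤ c₂ ∧ 0 ≤ c₃ ∧ ∀ K : ConvexBody V,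
          Φ K = c₁ • Pi K + c₂ • (K + point (-steiner K)) +
            c₃ • ((-1 : ℝ) • K + point (steiner K)) := by
  refine ⟨MV.PiB, fun K u hu => (projVol_eq K hu).symm, ?_⟩
  intro Φ hΦ ⟨K₀, hK₀, P, hPf, hP⟩
  have hM := isMVal hΦ
  have hPn : hPf.toFinset.Nonempty := by
    rw [Set.Finite.toFinset_nonempty, ← convexHull_nonempty_iff (𝕜 := ℝ), ← hP]
    exact (Φ K₀).nonempty
  obtain ⟨c₁, c₂, c₃, h1, h2, h3, h4⟩ := MV.classification hn hM
    (MV.crease_formula hn hM) K₀ hK₀ hPf.toFinset hPn (by
      apply ConvexBody.ext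
      rw [MV.coe_hull, hP]
      simp)
  refine ⟨c₁, c₂, c₃, h1, h2, h3, fun K => ?_⟩
  apply MV.hs_ext
  intro v
  rw [h4, steiner_eq (by omega), point_eq, point_eq, MV.hs_add, MV.hs_add, MV.hs_smul h1,
    MV.hs_smul h2, MV.hs_smul h3, MV.hs_add, MV.hs_add, MV.hs_pt, MV.hs_pt, MV.hs_neg_one_smul,
    inner_neg_right, real_inner_comm v (MV.stn K)]
  ring

end Pool.Agent.Results.MP_f30071_gt.PolytopeImage
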